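import Pool.Agent.CubicShort.Final

/-!
MP_b56abb_co, Q1: every cubic graph in which each vertex lies on a cycle of length 3 or 4 is
(1,1,2,2)-packing colourable.
-/

namespace Pool.Agent.Results.MP_b56abb_co.ShortCycleCover

open Pool.Agent.CubicShort

universe u

theorem result {V : Type u} [Finite V] (G : SimpleGraph V)
    (hcubic : ∀ v : V, (G.neighborSet v).ncard = 3)
    (hshort : ∀ v : V, ∃ w : G.Walk v v, w.IsCycle ∧ (w.length = 3 ∨ w.length = 4)) :
    PackingColorable G ![1, 1, 2, 2] :=
  packingColorable_of_short G hcubic hshort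

end Pool.Agent.Results.MP_b56abb_co.ShortCycleCover
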